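import Pool.Agent.Helper99.MKV.GoalsC

/-!
# MKV, packet HIE: visits, exit times and hitting probabilities
-/

set_option autoImplicit false

open Finset

namespace Pool.Agent.Helper65.MKV

open Pool.Agent.Helper99.ERW Pool.Agent.Helper99.MKV
open Pool.Agent.Helper99.EXC (La Df)

/-- the square of the euclidean norm -/
noncomputable def sq (x : Site 2) : ℝ := (x 0 : ℝ) ^ 2 + (x 1 : ℝ) ^ 2

lemma sd_sq (l : Fin 2) (x : Site 2) : secondDiff sq l x = 2 := by
  unfold secondDiff sq vec
  fin_cases l <;> simp <;> ring

lemma stp_sq {E ι : Type} [Fintype ι] {U : Sys E ι} (hU : U.Ok) (s : MSt E) :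
    stp U (fun s => sq s.1) s = sq s.1 + 1 := by
  rw [stp_pos hU (1 / 2) sq s]
  unfold La Df
  rw [sd_sq, sd_sq]
  ring

lemma hp_nonneg {E ι : Type} [Fintype ι] {U : Sys E ι} (hU : U.Ok) (N : ℕ) (s : MSt E) :
    0 ≤ hp U N s := by
  induction N generalizing s with
  | zero => rw [hp]; split_ifs <;> norm_num
  | succ N ih =>
    rw [hp]
    split_ifs
    · norm_num
    · have h1 := stp_mono hU (F := fun _ => (0 : ℝ)) (G := hp U N) (s := s) (fun i e => ih _)
      rwa [stp_const hU] at h1

lemma hp_le_one {E ι : Type} [Fintype ι] {U : Sys E ι} (hU : U.Ok) (N : ℕ) (s : MSt E) :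
    hp U N s ≤ 1 := by
  induction N generalizing s with
  | zero => rw [hp]; split_ifs <;> norm_num
  | succ N ih =>
    rw [hp]
    split_ifs
    · norm_num
    · exact stp_le_const hU fun i e => ih _

lemma hp_succ_le {E ι : Type} [Fintype ι] {U : Sys E ι} (hU : U.Ok) (N : ℕ) (s : MSt E) :
    hp U N s ≤ hp U (N + 1) s := by
  induction N generalizing s with
  | zero =>
    by_cases h0 : s.1 = 0
    · rw [hp, hp, if_pos h0, if_pos h0]
    · rw [show hp U 0 s = 0 by rw [hp, if_neg h0]]
      exact hp_nonneg hU _ s
  | succ N ih =>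
    by_cases h0 : s.1 = 0
    · rw [hp, hp, if_pos h0, if_pos h0]
    · have e1 : hp U (N + 1) s = stp U (hp U N) s := by rw [hp, if_neg h0]
      have e2 : hp U (N + 1 + 1) s = stp U (hp U (N + 1)) s := by rw [hp, if_neg h0]
      rw [e1, e2]
      exact stp_mono hU fun i e => ih _

theorem HIE : HIE_stmt := by
  intro E ι _ U hU
  refine ⟨?_, ?_, ?_⟩
  · intro Λ M hM h N
    induction N with
    | zero =>
      intro s0
      rw [Rw_zero]
      exact mul_nonneg hM (hp_nonneg hU 0 s0)
    | succ N ih =>
      intro s0
      by_cases h0 : s0.1 = 0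
      · refine (h (N + 1) s0 h0).trans (le_of_eq ?_)
        rw [hp, if_pos h0, mul_one]
      · by_cases hs : s0.1 ∈ Λ
        · rw [Rw_succ, inn_in Λ hs, if_neg h0, zero_add, KK_in Λ hs, hp, if_neg h0, ← stp_smul]
          exact stp_mono hU fun i e => ih _
        · rw [Rw_out Λ _ _ hs]
          exact mul_nonneg hM (hp_nonneg hU _ s0)
  · intro R N s0
    by_cases hs0 : s0.1 ∈ box 2 R
    · have hinn : inn (box 2 R) (fun _ => (1 : ℝ)) = one (E := E) (box 2 R) := by
        funext s; rfl
      have h1 := tele (box 2 R) N (F := fun s => sq s.1) (g := fun _ => 1) (fun s _ => stp_sq hU s) s0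
      have h2 : Ex U (box 2 R) N (fun s => sq s.1) s0 ≤ 2 * ((R : ℝ) + 1) ^ 2 := by
        have h3 := Ex_mono_inv (box 2 R) hU N (F := fun s => sq s.1)
          (G := fun _ => 2 * ((R : ℝ) + 1) ^ 2)
          (I := fun s => s.1 ∈ box 2 (R + 1))
          (fun s _ hs i e => by
            rw [nxt_fst, mem_box]
            rw [mem_box] at hs
            intro l
            have e1 := abs_add_le (s.1 l) (vec e l)
            have e2 := abs_vec_le e l
            have e3 := hs l
            push_cast
            have e4 : (s.1 + vec e) l = s.1 l + vec e l := rfl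
            rw [e4]
            linarith)
          (fun s hs => by
            rw [mem_box] at hs
            have e0 := hs 0
            have e1 := hs 1
            have e0' : |(s.1 0 : ℝ)| ≤ (R : ℝ) + 1 := by exact_mod_cast e0
            have e1' : |(s.1 1 : ℝ)| ≤ (R : ℝ) + 1 := by exact_mod_cast e1
            have f0 := sq_le_sq' (abs_le.mp e0').1 (abs_le.mp e0').2
            have f1 := sq_le_sq' (abs_le.mp e1').1 (abs_le.mp e1').2
            show sq s.1 ≤ _
            unfold sq
            linarith) s0
          (by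
            rw [mem_box] at hs0 ⊢
            intro l
            have := hs0 l
            push_cast
            linarith)
        rwa [Ex_const (box 2 R) hU] at h3
      have h4 : 0 ≤ sq s0.1 := by unfold sq; positivity
      have hanti : ∀ m, Ex U (box 2 R) (m + 1) (one (box 2 R)) s0 ≤
          Ex U (box 2 R) m (one (box 2 R)) s0 := by
        intro m
        rw [Ex_succ']
        refine Ex_mono (box 2 R) hU m (fun s => ?_) s0
        by_cases hs : s.1 ∈ box 2 R
        · rw [KK_in _ hs]
          have e1 : one (box 2 R) s = 1 := by unfold one; rw [if_pos hs]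
          rw [e1]
          exact stp_le_const hU (fun i e => by
            unfold one; split_ifs <;> norm_num)
        · rw [KK_out _ hs]
      have hA : Antitone (fun m => Ex U (box 2 R) m (one (box 2 R)) s0) :=
        antitone_nat_of_succ_le hanti
      have h5 : (N : ℝ) * Ex U (box 2 R) N (one (box 2 R)) s0 ≤
          Rw U (box 2 R) N (fun _ => 1) s0 := by
        unfold Rw
        rw [hinn]
        have h6 := Finset.card_nsmul_le_sum (range N) (fun m => Ex U (box 2 R) m (one (box 2 R)) s0)
          (Ex U (box 2 R) N (one (box 2 R)) s0) (fun m hm => hA (le_of_lt (Finset.mem_range.mp hm)))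
        rwa [Finset.card_range, nsmul_eq_mul] at h6
      linarith
    · rw [Ex_out _ N _ hs0]
      have e1 : one (box 2 R) s0 = 0 := by unfold one; rw [if_neg hs0]
      rw [e1, mul_zero]
      positivity
  · intro N s0
    exact ⟨hp_nonneg hU N s0, hp_le_one hU N s0, hp_succ_le hU N s0⟩

end Pool.Agent.Helper65.MKV
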